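import Mathlib

/-!
A connected graph on 25 vertices whose largest induced tree is smaller than the conjectured
lower bound from average eccentricity and neighbourhood independence.
-/

namespace Pool.Agent.Results.MP_e3442a_co.TreeEccCounterexample

open SimpleGraph Finset

/-- The largest number of vertices in a set inducing a tree. -/
noncomputable def treeNum {V : Type*} [Fintype V] (G : SimpleGraph V) : ℕ :=
  sSup {k | ∃ S : Finset V, S.card = k ∧ (G.induce (S : Set V)).IsTree}

/-- The eccentricity of `v`, the maximum distance to another vertex. -/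
noncomputable def ecc {V : Type*} [Fintype V] (G : SimpleGraph V) (v : V) : ℕ :=
  Finset.univ.sup (fun u => G.dist v u)

/-- The average eccentricity. -/
noncomputable def avgEcc {V : Type*} [Fintype V] (G : SimpleGraph V) : ℝ :=
  (∑ v, (ecc G v : ℝ)) / (Fintype.card V : ℝ)

/-- The largest number of pairwise non-adjacent neighbours of `v`. -/
noncomputable def lam {V : Type*} (G : SimpleGraph V) (v : V) : ℕ :=
  (G.induce (G.neighborSet v)).indepNum

/-- Level of a vertex. -/
def lv (i : Fin 25) : ℕ :=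
  if i.val < 10 then 0 else if i.val = 10 then 1 else if i.val < 14 then 2
  else if i.val = 14 then 3 else 4

/-- Boolean adjacency. -/
def adjb (i j : Fin 25) : Bool :=
  decide (i ≠ j) && (decide (lv i = lv j ∧ lv i ≠ 2) || decide (lv i + 1 = lv j) ||
    decide (lv j + 1 = lv i))

/-- The graph: two copies of `K_10` joined through `p1` (10), three middle vertices
(11, 12, 13) and `p3` (14). -/
def G0 : SimpleGraph (Fin 25) where
  Adj i j := adjb i j = true
  symm := ⟨by decide +kernel⟩
  loopless := ⟨by decide +kernel⟩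

instance : DecidableRel G0.Adj := fun i j => inferInstanceAs (Decidable (adjb i j = true))

theorem closed_of_connected {V : Type*} {G : SimpleGraph V} (hG : G.Connected) (P : V → Prop)
    (hP : ∀ a b, G.Adj a b → P a → P b) {x : V} (hx : P x) (y : V) : P y := by
  obtain ⟨w⟩ := hG.preconnected x y
  induction w with
  | nil => exact hx
  | cons h _ ih => exact ih (hP _ _ h hx)

theorem lv_adj : ∀ i j, G0.Adj i j → lv j ≤ lv i + 1 := by decide +kernel

theorem lv_walk {i j : Fin 25} (w : G0.Walk i j) : lv j ≤ lv i + w.length := by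
  induction w with
  | nil => simp
  | cons h _ ih =>
    have := lv_adj _ _ h
    simp only [Walk.length_cons]
    omega

theorem conn : G0.Connected := by
  have h : ∀ i : Fin 25, G0.Reachable i 10 := by
    have h14 : G0.Reachable 14 10 :=
      (Adj.reachable (by decide : G0.Adj 14 11)).trans (Adj.reachable (by decide : G0.Adj 11 10))
    have key : ∀ i : Fin 25, i = 10 ∨ i = 14 ∨ G0.Adj i 10 ∨ G0.Adj i 14 := by decide +kernel
    intro i
    rcases key i with h | h | h | h
    · subst h; exact Reachable.refl _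
    · subst h; exact h14
    · exact h.reachable
    · exact h.reachable.trans h14
  have : Nonempty (Fin 25) := ⟨0⟩
  exact ⟨fun i j => (h i).trans (h j).symm⟩

theorem dist_ge (i j : Fin 25) : lv j ≤ lv i + G0.dist i j := by
  obtain ⟨w, hw⟩ := conn.exists_walk_length_eq_dist i j
  rw [← hw]
  exact lv_walk w

theorem ecc_ge (i j : Fin 25) : lv j - lv i ≤ ecc G0 i ∧ lv i - lv j ≤ ecc G0 i := by
  have h1 : G0.dist i j ≤ ecc G0 i :=
    Finset.le_sup (f := fun u => G0.dist i u) (Finset.mem_univ j)
  have h2 := dist_ge i j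
  have h3 := dist_ge j i
  rw [SimpleGraph.dist_comm] at h3
  omega

theorem ecc_ge' (i : Fin 25) : max (4 - lv i) (lv i) ≤ ecc G0 i := by
  have h1 := (ecc_ge i 24).1
  have h2 := (ecc_ge i 0).2
  have h3 : lv 24 = 4 := by decide
  have h4 : lv 0 = 0 := by decide
  rw [h3] at h1
  rw [h4] at h2
  omega

theorem sum_ecc : 92 ≤ ∑ i, ecc G0 i := by
  have h1 : ∑ i : Fin 25, max (4 - lv i) (lv i) = 92 := by decide +kernel
  rw [← h1]
  exact Finset.sum_le_sum fun i _ => ecc_ge' i

theorem lam_ge : 4 ≤ lam G0 10 := by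
  unfold lam
  have h1 : ({0, 11, 12, 13} : Finset (Fin 25)).card = 4 := by decide
  let J' : Finset (G0.neighborSet 10) := ({0, 11, 12, 13} : Finset (Fin 25)).attach.map
    ⟨fun w => ⟨w.1, by
      have : ∀ w ∈ ({0, 11, 12, 13} : Finset (Fin 25)), G0.Adj 10 w := by decide +kernel
      exact this w.1 w.2⟩, fun a b hab => by
      apply Subtype.ext
      simpa using congrArg Subtype.val hab⟩
  have hc : J'.card = 4 := by rw [← h1, card_map, card_attach]
  rw [← hc]
  apply IsIndepSet.card_le_indepNum
  intro a ha b hb hab hadj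
  simp only [J', coe_map, Set.mem_image, mem_coe, mem_attach,
    true_and, Subtype.exists] at ha hb
  obtain ⟨x, hx, rfl⟩ := ha
  obtain ⟨y, hy, rfl⟩ := hb
  have key : ∀ x ∈ ({0, 11, 12, 13} : Finset (Fin 25)),
      ∀ y ∈ ({0, 11, 12, 13} : Finset (Fin 25)), ¬ G0.Adj x y := by decide +kernel
  exact key x hx y hy hadj

/-- In a set inducing an acyclic subgraph there are no three pairwise adjacent vertices. -/
theorem no_triangle {S : Finset (Fin 25)} (hS : (G0.induce (S : Set (Fin 25))).IsAcyclic)
    {a b c : Fin 25} (ha : a ∈ S) (hb : b ∈ S) (hc : c ∈ S)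
    (hab : G0.Adj a b) (hac : G0.Adj a c) (hbc : G0.Adj b c) : False := by
  classical
  have h := hS.cliqueFree (n := 3) le_rfl
  let a' : (S : Set (Fin 25)) := ⟨a, ha⟩
  let b' : (S : Set (Fin 25)) := ⟨b, hb⟩
  let c' : (S : Set (Fin 25)) := ⟨c, hc⟩
  have e1 : (G0.induce (S : Set (Fin 25))).Adj a' b' := hab
  have e2 : (G0.induce (S : Set (Fin 25))).Adj a' c' := hac
  have e3 : (G0.induce (S : Set (Fin 25))).Adj b' c' := hbc
  apply h {a', b', c'}
  rw [is3Clique_iff]
  exact ⟨_, _, _, e1, e2, e3, rfl⟩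

/-- No four-cycle in a set inducing an acyclic subgraph. -/
theorem no_square {S : Finset (Fin 25)} (hS : (G0.induce (S : Set (Fin 25))).IsAcyclic)
    {a b c d : Fin 25} (ha : a ∈ S) (hb : b ∈ S) (hc : c ∈ S) (hd : d ∈ S)
    (hab : G0.Adj a b) (hbd : G0.Adj b d) (hac : G0.Adj a c) (hcd : G0.Adj c d)
    (hbc : b ≠ c) (had : a ≠ d) : False := by
  let H := G0.induce (S : Set (Fin 25))
  let a' : (S : Set (Fin 25)) := ⟨a, ha⟩
  let b' : (S : Set (Fin 25)) := ⟨b, hb⟩
  let c' : (S : Set (Fin 25)) := ⟨c, hc⟩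
  let d' : (S : Set (Fin 25)) := ⟨d, hd⟩
  have e1 : H.Adj a' b' := hab
  have e2 : H.Adj b' d' := hbd
  have e3 : H.Adj a' c' := hac
  have e4 : H.Adj c' d' := hcd
  have had' : a' ≠ d' := fun h => had (congrArg Subtype.val h)
  let p : H.Walk a' d' := Walk.cons e1 (Walk.cons e2 Walk.nil)
  let q : H.Walk a' d' := Walk.cons e3 (Walk.cons e4 Walk.nil)
  have hp : p.IsPath := by
    simp only [p, Walk.cons_isPath_iff, Walk.support_cons, Walk.support_nil, List.mem_cons,
      List.not_mem_nil, or_false, not_or]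
    exact ⟨⟨Walk.IsPath.nil, e2.ne⟩, e1.ne, had'⟩
  have hq : q.IsPath := by
    simp only [q, Walk.cons_isPath_iff, Walk.support_cons, Walk.support_nil, List.mem_cons,
      List.not_mem_nil, or_false, not_or]
    exact ⟨⟨Walk.IsPath.nil, e4.ne⟩, e3.ne, had'⟩
  have := (hS.subsingleton_path a' d').elim ⟨p, hp⟩ ⟨q, hq⟩
  have h2 : p = q := congrArg Subtype.val this
  have h3 : p.support = q.support := by rw [h2]
  simp only [p, q, Walk.support_cons, Walk.support_nil, List.cons.injEq, true_and, and_true]
    at h3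
  exact hbc (congrArg Subtype.val h3)

/-- At most two vertices of an acyclic set lie in a clique. -/
theorem clique_part {S C : Finset (Fin 25)} (hS : (G0.induce (S : Set (Fin 25))).IsAcyclic)
    (hC : ∀ a ∈ C, ∀ b ∈ C, a ≠ b → G0.Adj a b) : (S ∩ C).card ≤ 2 := by
  by_contra h
  obtain ⟨a, b, c, ha, hb, hc, hab, hac, hbc⟩ := two_lt_card_iff.1 (not_le.1 h)
  simp only [mem_inter] at ha hb hc
  exact no_triangle hS ha.1 hb.1 hc.1 (hC a ha.2 b hb.2 hab) (hC a ha.2 c hc.2 hac)
    (hC b hb.2 c hc.2 hbc)

/-- The left clique, the middle, and the right clique. -/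
def Lf : Finset (Fin 25) := univ.filter (fun i => i.val < 11)
def Md : Finset (Fin 25) := univ.filter (fun i => 10 < i.val ∧ i.val < 14)
def Rt : Finset (Fin 25) := univ.filter (fun i => 13 < i.val)

theorem card_split (S : Finset (Fin 25)) :
    S.card = (S ∩ Lf).card + (S ∩ Md).card + (S ∩ Rt).card := by
  have h : S = ((S ∩ Lf) ∪ (S ∩ Md)) ∪ (S ∩ Rt) := by
    rw [← inter_union_distrib_left, ← inter_union_distrib_left]
    have : Lf ∪ Md ∪ Rt = univ := by decide +kernel
    rw [this, inter_univ]
  conv_lhs => rw [h]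
  rw [card_union_of_disjoint, card_union_of_disjoint]
  · exact Disjoint.mono inter_subset_right inter_subset_right (by decide +kernel)
  · rw [← inter_union_distrib_left]
    exact Disjoint.mono inter_subset_right inter_subset_right (by decide +kernel)

theorem part_eq_empty {S C : Finset (Fin 25)} {p : Fin 25}
    (hS : (G0.induce (S : Set (Fin 25))).Connected)
    (hC : ∀ a b, G0.Adj a b → a ∈ C → b = p ∨ b ∈ C) (hp : p ∉ S)
    {x : Fin 25} (hx : x ∈ S) (hxC : x ∉ C) : ∀ a ∈ S, a ∉ C := by
  intro a ha haC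
  have := closed_of_connected hS (fun v => v.1 ∈ C) (by
    intro u v huv hu
    rcases hC u.1 v.1 huv hu with h | h
    · exact absurd (h ▸ v.2) hp
    · exact h) (x := ⟨a, ha⟩) haC ⟨x, hx⟩
  exact hxC this

theorem tree_le {S : Finset (Fin 25)} (hS : (G0.induce (S : Set (Fin 25))).IsTree) :
    S.card ≤ 5 := by
  have hac := hS.isAcyclic
  have hco := hS.connected
  have h1 : (S ∩ Lf).card ≤ 2 := clique_part hac (by decide +kernel)
  have h2 : (S ∩ Rt).card ≤ 2 := clique_part hac (by decide +kernel)
  have hsplit := card_split S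
  have h3 : (S ∩ Md).card ≤ 3 := by
    refine (card_le_card inter_subset_right).trans ?_
    decide +kernel
  by_cases hm : (S ∩ Md).card ≤ 1
  · omega
  obtain ⟨x, hx, y, hy, hxy⟩ := one_lt_card.1 (not_le.1 hm)
  simp only [mem_inter] at hx hy
  have hxM : ∀ z ∈ Md, G0.Adj 10 z ∧ G0.Adj z 14 ∧ z.val ≠ 10 ∧
      z ∉ (univ.filter (fun i : Fin 25 => i.val < 10)) ∧
      z ∉ (univ.filter (fun i : Fin 25 => 14 < i.val)) := by decide +kernel
  by_cases h10 : (10 : Fin 25) ∈ S
  · by_cases h14 : (14 : Fin 25) ∈ S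
    · exact (no_square hac h10 hx.1 hy.1 h14 (hxM x hx.2).1 (hxM x hx.2).2.1
        (hxM y hy.2).1 (hxM y hy.2).2.1 hxy (by decide)).elim
    · have := part_eq_empty (C := univ.filter (fun i : Fin 25 => 14 < i.val)) (p := 14) hco
        (by decide +kernel) h14 hx.1 (hxM x hx.2).2.2.2.2
      have hR : S ∩ Rt = ∅ := by
        ext z
        simp only [mem_inter, notMem_empty, iff_false, not_and]
        intro hz hzR
        have h5 := this z hz
        simp only [Rt, mem_filter, mem_univ, true_and] at h5 hzR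
        have : z = 14 := by
          apply Fin.ext
          show z.val = 14
          omega
        exact h14 (this ▸ hz)
      rw [hR, card_empty] at hsplit
      omega
  · have := part_eq_empty (C := univ.filter (fun i : Fin 25 => i.val < 10)) (p := 10) hco
      (by decide +kernel) h10 hx.1 (hxM x hx.2).2.2.2.1
    have hR : S ∩ Lf = ∅ := by
      ext z
      simp only [mem_inter, notMem_empty, iff_false, not_and]
      intro hz hzR
      have h5 := this z hz
      simp only [Lf, mem_filter, mem_univ, true_and] at h5 hzR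
      have : z = 10 := by
        apply Fin.ext
        show z.val = 10
        omega
      exact h10 (this ▸ hz)
    rw [hR, card_empty] at hsplit
    omega

theorem treeNum_le : treeNum G0 ≤ 5 := by
  unfold treeNum
  apply csSup_le'
  rintro k ⟨S, rfl, hS⟩
  exact tree_le hS

/-- There is a connected graph on 25 vertices violating the conjectured inequality. -/
theorem result : ∃ G : SimpleGraph (Fin 25), G.Connected ∧
    (treeNum G : ℤ) < ⌈avgEcc G + ((⨆ v, lam G v : ℕ) : ℝ) / 3⌉ := by
  refine ⟨G0, conn, ?_⟩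
  rw [Int.lt_ceil]
  have h1 : (treeNum G0 : ℝ) ≤ 5 := by exact_mod_cast treeNum_le
  have h2 : (92 : ℝ) ≤ ∑ i, (ecc G0 i : ℝ) := by exact_mod_cast sum_ecc
  have h3 : (92 : ℝ) / 25 ≤ avgEcc G0 := by
    unfold avgEcc
    simp only [Fintype.card_fin, Nat.cast_ofNat]
    linarith
  have h4 : (4 : ℝ) ≤ ((⨆ v, lam G0 v : ℕ) : ℝ) := by
    have : 4 ≤ ⨆ v, lam G0 v :=
      lam_ge.trans (le_ciSup (Set.finite_range (lam G0)).bddAbove 10)
    exact_mod_cast this
  push_cast
  linarith

end Pool.Agent.Results.MP_e3442a_co.TreeEccCounterexample
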